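import Mathlib
import Pool.Agent.H200Z.HTDefs
import Pool.Agent.H200Z.HTMain

set_option autoImplicit false

namespace Pool.Agent.Results.MP_9803f8_al.NotWeaklyGeometric

open Pool.Agent.H200Z.HT

/-- There are quasi-isometric finitely generated groups `G`, `H` with `H` highly transitive such
that no group commensurable to `G` is highly transitive. -/
theorem result : ∃ (G H : Type) (_ : Group G) (_ : Group H), Group.FG G ∧ Group.FG H ∧
    QuasiIsometric G H ∧ HighlyTransitive H ∧
    ∀ (K : Type) [Group K], CommensurableGroups G K → ¬ HighlyTransitive K :=
  main

end Pool.Agent.Results.MP_9803f8_al.NotWeaklyGeometric
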